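import Pool.Agent.LE.StmtsI

/-!
# Squad LIR, row FMO: the first moment of the powers of `T`
-/

set_option autoImplicit false

open MeasureTheory ProbabilityTheory Function Filter

open scoped ENNReal BigOperators Topology NNReal ComplexOrder

noncomputable section

namespace Pool.Agent.LE.IR.H76

open Pool.Agent.Anderson hiding box mem_box card_box
open Pool.Agent.Loc Pool.Agent.Mob Pool.Agent.Helper54.Bal
  Pool.Agent.Helper96.EXP Pool.Agent.BED Pool.Agent.BED.H32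
open Pool.Agent.LE.MN Pool.Agent.LE.CL

variable {d M : ℕ} [NeZero M]

/-- the weight in one coordinate -/
def gw {M : ℕ} (a : ZMod M) : ℝ := ((1 + (a.valMinAbs.natAbs : ℝ)) ^ 2)⁻¹

theorem gw_pos {M : ℕ} (a : ZMod M) : 0 < gw a := by
  unfold gw
  positivity

theorem summable_int : Summable fun k : ℤ => ((1 + (k.natAbs : ℝ)) ^ 2)⁻¹ := by
  have h1 : Summable fun n : ℕ => ((1 + (n : ℝ)) ^ 2)⁻¹ := by
    have h2 := (summable_nat_add_iff 1).2 (Real.summable_one_div_nat_pow (p := 2).2 (by norm_num))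
    refine h2.congr fun n => ?_
    push_cast
    rw [one_div, add_comm (n : ℝ) 1]
  refine Summable.of_nat_of_neg ?_ ?_
  · refine h1.congr fun n => ?_
    rw [Int.natAbs_natCast]
  · refine h1.congr fun n => ?_
    rw [Int.natAbs_neg, Int.natAbs_natCast]

/-- the constant -/
def KK : ℝ := ∑' k : ℤ, ((1 + (k.natAbs : ℝ)) ^ 2)⁻¹

theorem KK_nonneg : 0 ≤ KK := tsum_nonneg fun k => by positivity

theorem sum_gw (M : ℕ) [NeZero M] : ∑ a : ZMod M, gw a ≤ KK := by
  classical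
  have h1 : ∑ a : ZMod M, gw a =
      ∑ k ∈ Finset.univ.image (fun a : ZMod M => a.valMinAbs), ((1 + (k.natAbs : ℝ)) ^ 2)⁻¹ := by
    rw [Finset.sum_image]
    · rfl
    · intro a _ b _ h
      exact ZMod.injective_valMinAbs h
  rw [h1]
  exact summable_int.sum_le_tsum _ fun k _ => by positivity

theorem sum_weight (x : Tor d M) :
    ∑ y : Tor d M, ((1 + (tds x y : ℝ)) ^ (2 * d))⁻¹ ≤ KK ^ d := by
  classical
  have h1 : ∀ y : Tor d M, ((1 + (tds x y : ℝ)) ^ (2 * d))⁻¹ ≤ ∏ i, gw (y i - x i) := by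
    intro y
    have h2 : ((1 + (tds x y : ℝ)) ^ (2 * d))⁻¹ =
        ∏ _i : Fin d, ((1 + (tds x y : ℝ)) ^ 2)⁻¹ := by
      rw [Finset.prod_const, Finset.card_univ, Fintype.card_fin, inv_pow, pow_mul]
    rw [h2]
    refine Finset.prod_le_prod (fun i _ => by positivity) fun i _ => ?_
    unfold gw
    have h3 : (y i - x i).valMinAbs.natAbs ≤ tds x y := by
      unfold tds
      exact Finset.le_sup (f := fun i => (y i - x i).valMinAbs.natAbs) (Finset.mem_univ i)
    have h4 : ((y i - x i).valMinAbs.natAbs : ℝ) ≤ tds x y := by exact_mod_cast h3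
    apply inv_anti₀ (by positivity)
    gcongr
  refine (Finset.sum_le_sum fun y _ => h1 y).trans ?_
  have h5 : ∑ y : Tor d M, ∏ i, gw (y i - x i) = ∏ i : Fin d, ∑ a : ZMod M, gw (a - x i) := by
    rw [Finset.prod_univ_sum]
    rw [Fintype.piFinset_univ]
  rw [h5]
  have h6 : ∀ i : Fin d, ∑ a : ZMod M, gw (a - x i) = ∑ a : ZMod M, gw a := fun i =>
    Equiv.sum_comp (Equiv.subRight (x i)) (fun a => gw a)
  simp only [h6]
  rw [Finset.prod_const, Finset.card_univ, Fintype.card_fin]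
  refine pow_le_pow_left₀ (Finset.sum_nonneg fun a _ => (gw_pos a).le) (sum_gw M) d

theorem natAbs_one (M : ℕ) [NeZero M] : (1 : ZMod M).valMinAbs.natAbs ≤ 1 := by
  rw [ZMod.valMinAbs_natAbs_eq_min]
  refine (min_le_left _ _).trans ?_
  rw [ZMod.val_one_eq_one_mod]
  exact Nat.mod_le 1 M

theorem tds_ev (x : Tor d M) (i : Fin d) : tds x (x + ev i) ≤ 1 ∧ tds x (x - ev i) ≤ 1 := by
  constructor
  · unfold tds
    refine Finset.sup_le fun j _ => ?_
    have h1 : (x + ev i : Tor d M) j - x j = (ev i : Tor d M) j := by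
      rw [Pi.add_apply]; ring
    rw [h1]
    unfold ev
    rw [Pi.single_apply]
    split_ifs
    · exact natAbs_one M
    · rw [ZMod.valMinAbs_zero]
      norm_num
  · unfold tds
    refine Finset.sup_le fun j _ => ?_
    have h1 : (x - ev i : Tor d M) j - x j = -(ev i : Tor d M) j := by
      rw [Pi.sub_apply]; ring
    rw [h1, ZMod.natAbs_valMinAbs_neg]
    unfold ev
    rw [Pi.single_apply]
    split_ifs
    · exact natAbs_one M
    · rw [ZMod.valMinAbs_zero]
      norm_num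

theorem tds_self (x : Tor d M) : tds x x = 0 := by
  unfold tds
  refine Nat.le_zero.1 (Finset.sup_le fun j _ => ?_)
  rw [sub_self, ZMod.valMinAbs_zero]
  norm_num

theorem TM_supp (z : ℝ) (V : Tor d M → ℝ) (x y : Tor d M) (h : TM z V x y ≠ 0) :
    tds x y ≤ 1 := by
  by_contra hlt
  push Not at hlt
  apply h
  have hxy : x ≠ y := by
    rintro rfl
    rw [tds_self] at hlt
    omega
  have h1 : ∀ i : Fin d, y ≠ x + ev i ∧ y ≠ x - ev i := by
    intro i
    constructor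
    · rintro rfl
      have := (tds_ev x i).1
      omega
    · rintro rfl
      have := (tds_ev x i).2
      omega
  have h2 : adj d M x y = 0 := by
    unfold adj
    rw [Matrix.of_apply]
    refine Finset.sum_eq_zero fun i _ => ?_
    rw [if_neg (h1 i).1, if_neg (h1 i).2, add_zero]
  unfold TM BED.AM
  rw [Matrix.sub_apply, Matrix.smul_apply, Matrix.sub_apply, Matrix.one_apply_ne hxy,
    Matrix.diagonal_apply_ne _ hxy, h2]
  simp

theorem TM_lam (hd : 1 ≤ d) (z lam : ℝ) (V : Tor d M → ℝ) :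
    TM (z - lam) V = TM z V + (lam / (8 * d)) • (1 : Matrix (Tor d M) (Tor d M) ℝ) := by
  have hd0 : (d : ℝ) ≠ 0 := by
    have : d ≠ 0 := by omega
    exact_mod_cast this
  have h1 : AM (z - lam) V = AM z V - lam • (1 : Matrix (Tor d M) (Tor d M) ℝ) := by
    unfold BED.AM
    ext x y
    by_cases h : x = y
    · subst h
      simp only [Matrix.sub_apply, Matrix.smul_apply, Matrix.diagonal_apply_eq,
        Matrix.one_apply_eq, smul_eq_mul]
      ring
    · simp only [Matrix.sub_apply, Matrix.smul_apply, Matrix.diagonal_apply_ne _ h,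
        Matrix.one_apply_ne h, smul_eq_mul]
      ring
  unfold TM
  rw [h1]
  ext x y
  simp only [Matrix.sub_apply, Matrix.add_apply, Matrix.smul_apply, smul_eq_mul]
  field_simp
  ring

/-- the exponential against powers -/
theorem exp_bd (d n : ℕ) (t : ℝ) (hn : 1 ≤ n) (ht1 : 1 ≤ t)
    (ht : 4 * (d + 1) * (n * (1 + Real.log n)) ≤ t ^ 2) :
    2 * Real.exp (-(t ^ 2 / (2 * n))) * t ≤
      2 * (d + 1).factorial * 4 ^ (d + 1) * 4 ^ d * ((1 + t) ^ (2 * d))⁻¹ := by
  have hn0 : (0 : ℝ) < n := by exact_mod_cast hn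
  have ht0 : 0 < t := by linarith
  have e1 : t ^ 2 / (2 * n) = t ^ 2 / (4 * n) + t ^ 2 / (4 * n) := by
    field_simp
    ring
  obtain ⟨s, hs⟩ : ∃ s : ℝ, s = t ^ 2 / (4 * n) := ⟨_, rfl⟩
  have hs0 : 0 < s := by rw [hs]; positivity
  have h1 : Real.exp (-s) ≤ ((n : ℝ) ^ (d + 1))⁻¹ := by
    have h2 : (d + 1) * Real.log n ≤ s := by
      rw [hs, le_div_iff₀ (by positivity)]
      have h3 : (0 : ℝ) ≤ (d + 1) * n := by positivity
      nlinarith
    rw [Real.exp_neg]
    apply inv_anti₀ (by positivity)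
    calc (n : ℝ) ^ (d + 1) = Real.exp (Real.log n) ^ (d + 1) := by rw [Real.exp_log hn0]
      _ = Real.exp ((d + 1) * Real.log n) := by
          rw [← Real.exp_nat_mul]
          push_cast
          rfl
      _ ≤ Real.exp s := Real.exp_le_exp.2 h2
  have h2 : Real.exp (-s) ≤ (d + 1).factorial / s ^ (d + 1) := by
    have h3 := Real.pow_div_factorial_le_exp s hs0.le (d + 1)
    rw [Real.exp_neg, ← inv_div]
    exact inv_anti₀ (by positivity) h3
  have h3 : Real.exp (-(t ^ 2 / (2 * n))) ≤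
      ((n : ℝ) ^ (d + 1))⁻¹ * ((d + 1).factorial / s ^ (d + 1)) := by
    rw [e1, ← hs, neg_add, Real.exp_add]
    exact mul_le_mul h1 h2 (Real.exp_pos _).le (by positivity)
  have h4 : ((n : ℝ) ^ (d + 1))⁻¹ * ((d + 1).factorial / s ^ (d + 1)) =
      (d + 1).factorial * 4 ^ (d + 1) * ((t ^ 2) ^ (d + 1))⁻¹ := by
    rw [hs, div_pow, mul_pow]
    field_simp
  have h5 : ((t ^ 2) ^ (d + 1))⁻¹ * t ≤ 4 ^ d * ((1 + t) ^ (2 * d))⁻¹ := by
    have h6 : (1 + t) ^ (2 * d) ≤ 4 ^ d * t ^ (2 * d) := by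
      calc (1 + t) ^ (2 * d) ≤ (2 * t) ^ (2 * d) := by
            apply pow_le_pow_left₀ (by positivity)
            linarith
        _ = 4 ^ d * t ^ (2 * d) := by
            rw [mul_pow, pow_mul]
            norm_num
    have h7 : ((t ^ 2) ^ (d + 1))⁻¹ * t ≤ (t ^ (2 * d))⁻¹ := by
      rw [← pow_mul, inv_mul_le_iff₀ (by positivity), ← div_eq_mul_inv, le_div_iff₀ (by positivity)]
      calc t * t ^ (2 * d) = t ^ (2 * d + 1) := by rw [pow_succ, mul_comm]
        _ ≤ t ^ (2 * (d + 1)) := pow_le_pow_right₀ ht1 (by omega)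
    refine h7.trans ?_
    have h8 : (0 : ℝ) < t ^ (2 * d) := by positivity
    have h9 : (0 : ℝ) < (1 + t) ^ (2 * d) := by positivity
    rw [← div_eq_mul_inv, le_div_iff₀ h9, inv_mul_le_iff₀ h8, mul_comm (t ^ (2 * d))]
    exact h6
  calc 2 * Real.exp (-(t ^ 2 / (2 * n))) * t
      ≤ 2 * ((d + 1).factorial * 4 ^ (d + 1) * ((t ^ 2) ^ (d + 1))⁻¹) * t := by
        rw [← h4]
        gcongr
    _ = 2 * (d + 1).factorial * 4 ^ (d + 1) * (((t ^ 2) ^ (d + 1))⁻¹ * t) := by ring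
    _ ≤ 2 * (d + 1).factorial * 4 ^ (d + 1) * (4 ^ d * ((1 + t) ^ (2 * d))⁻¹) := by
        gcongr
    _ = 2 * (d + 1).factorial * 4 ^ (d + 1) * 4 ^ d * ((1 + t) ^ (2 * d))⁻¹ := by ring

/-- the first moment for `lam = 0` -/
theorem moment (hCVB : CvbStmt) (hd : 1 ≤ d) {z μ ε : ℝ} {V : Tor d M → ℝ}
    (hz : z ≤ 2 * d + 1) (hμ : 0 < μ) (hε' : ε ≤ 1 / 50)
    (hF : FlatE ε z μ V) (n : ℕ) (hn : 1 ≤ n) (x : Tor d M) (j : ℕ) (hj : j ≤ n) :
    ∑ y, (TM z V ^ j) x y * tds x y ≤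
      2 * Real.sqrt (4 * (d + 1) * (n * (1 + Real.log n))) +
        2 * (d + 1).factorial * 4 ^ (d + 1) * 4 ^ d * KK ^ d := by
  obtain ⟨hV, hA, hD⟩ := hF
  have hn0 : (0 : ℝ) < n := by exact_mod_cast hn
  have hlog : 0 ≤ Real.log n := Real.log_nonneg (by exact_mod_cast hn)
  obtain ⟨R2, hR2⟩ : ∃ R2 : ℝ, R2 = 4 * (d + 1) * (n * (1 + Real.log n)) := ⟨_, rfl⟩
  have hR20 : 0 < R2 := by rw [hR2]; positivity
  have hK0 := KK_nonneg
  rw [← hR2]
  rcases Nat.eq_zero_or_pos j with rfl | hj0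
  · have h1 : ∑ y, (TM z V ^ 0) x y * (tds x y : ℝ) = 0 := by
      refine Finset.sum_eq_zero fun y _ => ?_
      rw [pow_zero]
      by_cases h : x = y
      · subst h
        rw [tds_self]
        simp
      · rw [Matrix.one_apply_ne h, zero_mul]
    rw [h1]
    positivity
  have hrow : ∀ y, 0 ≤ (TM z V ^ j) x y := row_nonneg hd hz hV x j
  have hmass : ∑ y, (TM z V ^ j) x y ≤ 2 := by
    have h1 := row_sum hd hz hV hA x j
    have h2 : DD z V x ≤ (1 + ε) * μ := by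
      have := (abs_le.1 (hD x)).2
      linarith
    have h3 : ∀ y, (1 - ε) * μ ≤ DD z V y := by
      intro y
      have := (abs_le.1 (hD y)).1
      linarith
    have h4 : (∑ y, (TM z V ^ j) x y) * ((1 - ε) * μ) ≤ ∑ y, (TM z V ^ j) x y * DD z V y := by
      rw [Finset.sum_mul]
      exact Finset.sum_le_sum fun y _ => mul_le_mul_of_nonneg_left (h3 y) (hrow y)
    have h5 : (∑ y, (TM z V ^ j) x y) * ((1 - ε) * μ) ≤ (1 + ε) * μ := h4.trans (h1.trans h2)
    have h6 : 0 ≤ ∑ y, (TM z V ^ j) x y := Finset.sum_nonneg fun y _ => hrow y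
    by_contra hlt
    push Not at hlt
    have h7 : 2 * ((1 - ε) * μ) < (∑ y, (TM z V ^ j) x y) * ((1 - ε) * μ) := by
      apply mul_lt_mul_of_pos_right hlt
      apply mul_pos _ hμ
      linarith
    have h8 : (1 + ε) * μ ≤ 2 * ((1 - ε) * μ) := by nlinarith
    linarith
  have hcontr : ∀ f : Tor d M → ℝ, ∑ x, (Matrix.mulVec (TM z V) f x) ^ 2 ≤ ∑ x, f x ^ 2 :=
    fun f => (TM_sq_le hd hz hV hA f).trans (TM_form_le hd hA f)
  have hcvb := hCVB d M (TM z V) (TM_symm z V) hcontr (TM_supp z V) j x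
  have hpt : ∀ y, (TM z V ^ j) x y * (tds x y : ℝ) ≤ Real.sqrt R2 * (TM z V ^ j) x y +
      2 * (d + 1).factorial * 4 ^ (d + 1) * 4 ^ d * ((1 + (tds x y : ℝ)) ^ (2 * d))⁻¹ := by
    intro y
    rcases le_or_gt ((tds x y : ℝ)) (Real.sqrt R2) with h | h
    · have h1 : (TM z V ^ j) x y * (tds x y : ℝ) ≤ Real.sqrt R2 * (TM z V ^ j) x y := by
        rw [mul_comm (Real.sqrt R2)]
        exact mul_le_mul_of_nonneg_left h (hrow y)
      have h2 : 0 ≤ 2 * ((d + 1).factorial : ℝ) * 4 ^ (d + 1) * 4 ^ d *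
          ((1 + (tds x y : ℝ)) ^ (2 * d))⁻¹ := by positivity
      linarith
    · have hpos : (0 : ℝ) < tds x y := lt_of_le_of_lt (Real.sqrt_nonneg _) h
      have h1 : (1 : ℝ) ≤ tds x y := by
        have : 0 < tds x y := by exact_mod_cast hpos
        exact_mod_cast this
      have h2 : R2 ≤ (tds x y : ℝ) ^ 2 := by
        have h3 := Real.sq_sqrt hR20.le
        have h4 := Real.sqrt_nonneg R2
        nlinarith
      have h3 : (TM z V ^ j) x y ≤ 2 * Real.exp (-((tds x y : ℝ) ^ 2 / (2 * n))) := by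
        refine (le_abs_self _).trans ((hcvb y).trans ?_)
        have hj1 : (0 : ℝ) < j := by exact_mod_cast hj0
        have hjn : (j : ℝ) ≤ n := by exact_mod_cast hj
        have h4 : (tds x y : ℝ) ^ 2 / (2 * n) ≤ (tds x y : ℝ) ^ 2 / (2 * j) := by
          apply div_le_div_of_nonneg_left (by positivity) (by positivity)
          linarith
        have h5 : Real.exp (-((tds x y : ℝ) ^ 2 / (2 * j))) ≤
            Real.exp (-((tds x y : ℝ) ^ 2 / (2 * n))) := by
          apply Real.exp_le_exp.2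
          linarith
        linarith
      have h4 := exp_bd d n (tds x y) hn h1 (by rw [← hR2]; exact h2)
      have h5 : (TM z V ^ j) x y * (tds x y : ℝ) ≤
          2 * Real.exp (-((tds x y : ℝ) ^ 2 / (2 * n))) * tds x y :=
        mul_le_mul_of_nonneg_right h3 hpos.le
      have h6 : 0 ≤ Real.sqrt R2 * (TM z V ^ j) x y := mul_nonneg (Real.sqrt_nonneg _) (hrow y)
      linarith
  refine (Finset.sum_le_sum fun y _ => hpt y).trans ?_
  rw [Finset.sum_add_distrib, ← Finset.mul_sum, ← Finset.mul_sum]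
  have h1 : Real.sqrt R2 * ∑ y, (TM z V ^ j) x y ≤ Real.sqrt R2 * 2 :=
    mul_le_mul_of_nonneg_left hmass (Real.sqrt_nonneg _)
  have h2 : 2 * ((d + 1).factorial : ℝ) * 4 ^ (d + 1) * 4 ^ d *
      ∑ y : Tor d M, ((1 + (tds x y : ℝ)) ^ (2 * d))⁻¹ ≤
      2 * (d + 1).factorial * 4 ^ (d + 1) * 4 ^ d * KK ^ d :=
    mul_le_mul_of_nonneg_left (sum_weight x) (by positivity)
  linarith

/-- FMO -/
theorem fmo (hCVB : CvbStmt) : FmoStmt := by
  intro d hd
  have hK0 := KK_nonneg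
  obtain ⟨K1, hK1⟩ : ∃ K1 : ℝ, K1 = 2 * (d + 1).factorial * 4 ^ (d + 1) * 4 ^ d * KK ^ d :=
    ⟨_, rfl⟩
  have hK10 : 0 ≤ K1 := by rw [hK1]; positivity
  obtain ⟨K2, hK2⟩ : ∃ K2 : ℝ, K2 = 2 * Real.sqrt (4 * (d + 1)) := ⟨_, rfl⟩
  have hK20 : 0 ≤ K2 := by rw [hK2]; positivity
  refine ⟨3 * (K2 + K1) + 1, by linarith, ?_⟩
  intro M _ z μ ε lam V n x hz hμ hε hε' hF hlam hnl hnM hn
  have hd1 : (1 : ℝ) ≤ d := by exact_mod_cast hd
  have hn1 : (1 : ℝ) ≤ n := by exact_mod_cast hn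
  have hn0 : (0 : ℝ) < n := by linarith
  have hlog : 0 ≤ Real.log n := Real.log_nonneg hn1
  obtain ⟨S, hS⟩ : ∃ S : ℝ, S = Real.sqrt (n * (1 + Real.log n)) := ⟨_, rfl⟩
  have hS1 : 1 ≤ S := by
    rw [hS]
    apply Real.one_le_sqrt.2
    nlinarith
  have hB : ∀ j ≤ n, ∑ y, (TM z V ^ j) x y * tds x y ≤ (K2 + K1) * S := by
    intro j hj
    refine (moment hCVB hd hz hμ hε' hF n hn x j hj).trans ?_
    rw [Real.sqrt_mul (by positivity), ← hS, ← hK1, ← mul_assoc, ← hK2]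
    nlinarith
  obtain ⟨l, hl⟩ : ∃ l : ℝ, l = lam / (8 * d) := ⟨_, rfl⟩
  have hl0 : 0 ≤ l := by rw [hl]; positivity
  have hpow : ∀ y, (TM (z - lam) V ^ n) x y =
      ∑ j ∈ Finset.range (n + 1), ((n.choose j : ℝ) * l ^ (n - j)) * (TM z V ^ j) x y := by
    intro y
    rw [TM_lam hd, ← hl]
    have hc : Commute (TM z V) (l • (1 : Matrix (Tor d M) (Tor d M) ℝ)) :=
      (Commute.one_right _).smul_right l
    rw [hc.add_pow, Matrix.sum_apply]
    refine Finset.sum_congr rfl fun j _ => ?_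
    rw [smul_pow, one_pow]
    have e1 : TM z V ^ j * l ^ (n - j) • (1 : Matrix (Tor d M) (Tor d M) ℝ) *
        ((n.choose j : ℕ) : Matrix (Tor d M) (Tor d M) ℝ) =
        ((n.choose j : ℝ) * l ^ (n - j)) • (TM z V ^ j) := by
      rw [Matrix.mul_smul, Matrix.mul_one, ← nsmul_eq_mul', smul_comm, ← Nat.cast_smul_eq_nsmul ℝ,
        smul_smul, mul_comm]
    rw [e1, Matrix.smul_apply, smul_eq_mul]
  have h1 : ∑ y, (TM (z - lam) V ^ n) x y * (tds x y : ℝ) =
      ∑ j ∈ Finset.range (n + 1), ((n.choose j : ℝ) * l ^ (n - j)) *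
        ∑ y, (TM z V ^ j) x y * (tds x y : ℝ) := by
    simp_rw [hpow, Finset.sum_mul, Finset.mul_sum]
    rw [Finset.sum_comm]
    refine Finset.sum_congr rfl fun j _ => Finset.sum_congr rfl fun y _ => ?_
    ring
  rw [h1]
  have h2 : ∑ j ∈ Finset.range (n + 1), ((n.choose j : ℝ) * l ^ (n - j)) *
      ∑ y, (TM z V ^ j) x y * (tds x y : ℝ) ≤
      ∑ j ∈ Finset.range (n + 1), ((n.choose j : ℝ) * l ^ (n - j)) * ((K2 + K1) * S) := by
    refine Finset.sum_le_sum fun j hj => ?_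
    refine mul_le_mul_of_nonneg_left (hB j (Nat.lt_succ_iff.1 (Finset.mem_range.1 hj))) ?_
    positivity
  refine h2.trans ?_
  rw [← Finset.sum_mul]
  have h3 : ∑ j ∈ Finset.range (n + 1), ((n.choose j : ℝ) * l ^ (n - j)) = (1 + l) ^ n := by
    rw [add_pow]
    refine Finset.sum_congr rfl fun j _ => ?_
    rw [one_pow]
    ring
  have h4 : (1 + l) ^ n ≤ 3 := by
    have h5 : 1 + l ≤ Real.exp l := by
      rw [add_comm]
      exact Real.add_one_le_exp l
    have h6 : (1 + l) ^ n ≤ Real.exp l ^ n := pow_le_pow_left₀ (by linarith) h5 n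
    rw [← Real.exp_nat_mul] at h6
    have h7 : n * l ≤ 1 := by
      have h8 : l ≤ lam := by
        rw [hl, div_le_iff₀ (by positivity)]
        nlinarith
      have h9 : 0 ≤ 1 / μ := by positivity
      have h10 : (n : ℝ) * (lam + 1 / μ) = n * lam + n * (1 / μ) := by ring
      have h11 : 0 ≤ (n : ℝ) * (1 / μ) := by positivity
      have h12 : (n : ℝ) * l ≤ n * lam := mul_le_mul_of_nonneg_left h8 hn0.le
      linarith
    have h13 : Real.exp (n * l) ≤ Real.exp 1 := Real.exp_le_exp.2 h7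
    have h14 := Real.exp_one_lt_d9
    linarith
  rw [h3, ← hS]
  have h5 : 0 ≤ (K2 + K1) * S := by positivity
  have h6 : (1 + l) ^ n * ((K2 + K1) * S) ≤ 3 * ((K2 + K1) * S) :=
    mul_le_mul_of_nonneg_right h4 h5
  nlinarith

end Pool.Agent.LE.IR.H76
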